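import Pool.Agent.H75.KN.Ty

/-!
# The growing blocks lemma for arrays of points
-/

set_option autoImplicit false

namespace Pool.Agent.H75.KN

open Set Pool.Agent.H75.HCI

variable {α L ι κ : Type} {t : List α → L}

/-- The array of the tuples `x i` and the blocks `b i`. -/
def pa {k : ℕ} (x : ℕ → Fin k → α) (b : ℕ → ℕ → α) (p : Idx k 1) : α :=
  p.2.elim (x p.1) fun q => b p.1 q.1

/-- The points of the s-part. -/
def Bp {k : ℕ} (In : Set (Fin k)) : Set (Idx k 1) := {p | ∀ b, p.2 = .inl b → b ∈ In}

lemma filterMap_eq (f : ι → Option α) (g : ι → α) (V : List ι) (h : ∀ v ∈ V, f v = some (g v)) :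
    V.filterMap f = V.map g := by
  induction V with
  | nil => rfl
  | cons v V ih =>
    rw [List.filterMap_cons_some (h v (List.mem_cons_self ..)), List.map_cons,
      ih fun w hw => h w (List.mem_cons_of_mem _ hw)]

lemma getElem_idx [DecidableEq α] {l : List α} {a : α} (h : a ∈ l) : l[l.idxOf a]? = some a := by
  have h1 : l.idxOf a < l.length := List.idxOf_lt_length_of_mem h
  rw [List.getElem?_eq_getElem h1]
  congr 1
  exact List.getElem_idxOf h1

/-- The type of a family from the full label of a list. -/
theorem ty_of_ft {z : List α} {l : List κ} {u u' : κ → α}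
    (h : ft t (z ++ l.map u) = ft t (z ++ l.map u')) (y : ι → κ) (hy : ∀ i, y i ∈ l) :
    ty t {a | a ∈ z} (u ∘ y) = ty t {a | a ∈ z} (u' ∘ y) := by
  classical
  rw [ty_iff]
  intro V hV
  let pos : α ⊕ ι → ℕ := Sum.elim (fun c => z.idxOf c) fun i => z.length + l.idxOf (y i)
  have key : ∀ u : κ → α, sel (z ++ l.map u) (V.map pos) = V.map (Sum.elim id (u ∘ y)) := by
    intro u
    unfold sel
    rw [List.filterMap_map]
    refine filterMap_eq _ _ V fun v hv => ?_
    rcases v with c | i
    · have hc : c ∈ z := hV c hv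
      have h1 : z.idxOf c < z.length := List.idxOf_lt_length_of_mem hc
      change (z ++ l.map u)[z.idxOf c]? = some c
      rw [List.getElem?_append_left h1]
      exact getElem_idx hc
    · change (z ++ l.map u)[z.length + l.idxOf (y i)]? = some (u (y i))
      rw [List.getElem?_append_right (Nat.le_add_right _ _), Nat.add_sub_cancel_left,
        List.getElem?_map, getElem_idx (hy i)]
      rfl
  have h1 := congrFun h (V.map pos)
  unfold ft at h1
  rw [key u, key u'] at h1
  exact h1

/-- Same pattern for finite families gives a map. -/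
lemma patInv_fam {k κ' : ℕ} {L' : Type} {T : List (Idx k κ') → L'} (hT : PatInv T) {m : ℕ}
    (p q : Fin m → Idx k κ') (h : SamePat p q) : T (List.ofFn p) = T (List.ofFn q) := by
  classical
  have hpq : ∀ i j, p i = p j → q i = q j := by
    intro i j hij
    have h1 : (q i).1 = (q j).1 := by
      have e1 := h.ord i j
      have e2 := h.ord j i
      rw [hij] at e1 e2
      omega
    have hk : kd (q i).2 = kd (q j).2 := by
      rw [← h.kd i, ← h.kd j, hij]
    refine Prod.ext h1 ?_
    rcases hqi : (q i).2 with a | u
    · rcases hqj : (q j).2 with a' | u'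
      · rw [hqi, hqj] at hk
        have : a = a' := by simpa [kd] using hk
        rw [this]
      · rw [hqi, hqj] at hk
        simp [kd] at hk
    · rcases hqj : (q j).2 with a' | u'
      · rw [hqi, hqj] at hk
        simp [kd] at hk
      · rw [hqi, hqj] at hk
        have hc : u.2 = u'.2 := by simpa [kd] using hk
        obtain ⟨v, hv⟩ := kd_inr (h.kd i).symm hqi
        obtain ⟨v', hv'⟩ := kd_inr (h.kd j).symm hqj
        have hvv : v = v' := by
          rw [hij, hv'] at hv
          exact (Sum.inr.inj hv).symm
        have e1 := h.mem i j (by rw [hij]) v u v' u' hv hv' hqi hqj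
        have e2 := h.mem j i (by rw [hij]) v' u' v u hv' hv hqj hqi
        rw [hvv] at e1 e2
        have : u.1 = u'.1 := by omega
        rw [Prod.ext this hc]
  let g : Idx k κ' → Idx k κ' := fun a => if h : ∃ i, p i = a then q h.choose else a
  have hg : ∀ i, g (p i) = q i := by
    intro i
    have hex : ∃ j, p j = p i := ⟨i, rfl⟩
    change (if h : ∃ j, p j = p i then q h.choose else p i) = q i
    rw [dif_pos hex]
    exact hpq _ _ hex.choose_spec
  have hpat : PatOn g (range p) := by
    refine ⟨?_, ?_, ?_⟩
    · rintro _ ⟨i, rfl⟩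
      rw [hg]
      exact (h.kd i).symm
    · rintro _ ⟨i, rfl⟩ _ ⟨j, rfl⟩
      rw [hg, hg]
      exact (h.ord i j).symm
    · rintro _ ⟨i, rfl⟩ _ ⟨j, rfl⟩ hij u u' v v' h1 h2 h3 h4
      rw [hg] at h3 h4
      exact (h.mem i j hij u u' v v' h1 h2 h3 h4).symm
  have h1 := hT g (range p) hpat (List.ofFn p) (fun x hx => by
    rw [List.mem_ofFn] at hx
    exact hx)
  rw [List.map_ofFn] at h1
  have e : g ∘ p = q := funext hg
  rw [e] at h1
  exact h1.symm

end Pool.Agent.H75.KN
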