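import Pool.Agent.H75.KN.Pg

/-!
# The growing blocks lemma for arrays of points, second part
-/

set_option autoImplicit false

namespace Pool.Agent.H75.KN

open Set Pool.Agent.H75.HCI

variable {α L : Type} {t : List α → L}

/-- The conclusion of the growing blocks lemma. -/
structure GBlock {k : ℕ} (t : List α → L) (z : Set α) (S : ℕ → ℕ) (In : Set (Fin k))
    (x : ℕ → Fin k → α) (b : ℕ → ℕ → α) : Prop where
  hom : ∀ (m : ℕ) (p q : Fin m → Idx k 1), (∀ i, p i ∈ V k 1 S) → (∀ i, q i ∈ V k 1 S) →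
    SamePat p q → ty t z (pa x b ∘ p) = ty t z (pa x b ∘ q)
  spart : ∀ C D1 D2 : Finset (Idx k 1), (∀ p ∈ C, p ∈ V k 1 S ∧ p ∉ Bp In) →
    (∀ p ∈ D1, p ∈ V k 1 S ∧ p ∈ Bp In) → (∀ p ∈ D2, p ∈ V k 1 S ∧ p ∈ Bp In) →
    D1.card = D2.card → ∃ f : Idx k 1 → Idx k 1, (∀ p ∈ C, f p = p) ∧
      BijOn f (D1 : Set (Idx k 1)) D2 ∧ ∀ (ι : Type) (y : ι → Idx k 1),
        (∀ i, y i ∈ C ∨ y i ∈ D1) → ty t z (pa x b ∘ f ∘ y) = ty t z (pa x b ∘ y)

lemma ec_id_inj {k : ℕ} : Function.Injective (ec (κ := 1) (id : Fin k → Fin k)) := by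
  rintro ⟨i, w⟩ ⟨j, w'⟩ h
  have hij : i = j := (Prod.ext_iff.1 h).1
  have hw := (Prod.ext_iff.1 h).2
  subst hij
  rcases w with a | u <;> rcases w' with a' | u'
  · have : a = a' := by simpa [ec] using hw
    rw [this]
  · simp [ec] at hw
  · simp [ec] at hw
  · have h1 : u.1 = u'.1 := by simpa [ec] using hw
    have h2 : u.2 = u'.2 := Subsingleton.elim _ _
    rw [Prod.ext h1 h2]

/-- The growing blocks lemma for points. -/
theorem pgp {k r : ℕ} (hs : SmallE t (id : α → α) univ) (hr : 2 ≤ r) (hloc : Loc r t)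
    (hfin : ∀ m, {y | ∃ l : List α, l.length = m ∧ t l = y}.Finite) (z : List α)
    (x : ℕ → Fin k → α) (v : ℕ → ℕ → α) (hx1 : ∀ j, Function.Injective (x j))
    (hx2 : ∀ j j' b b', j ≠ j' → x j b ≠ x j' b') (hxz : ∀ j b, x j b ∉ z)
    (hv : ∀ j, Function.Injective (v j)) (hvz : ∀ j m, v j m ∉ z) {S : ℕ → ℕ} (hS : SF k S)
    (hS2 : ∀ i, 2 ≤ S i) : ∃ n : ℕ → ℕ, StrictMono n ∧ ∃ In : Set (Fin k),
      GBlock t {a | a ∈ z} S In (fun i => x (n (st S i)))
        (fun i m => v (n (st S i)) (n (st S i + 1 + m))) := by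
  classical
  have hpre : ArrPre t (id : α → α) univ z (id : Fin k → Fin k) x
      (fun j m (_ : Fin 1) => v j m) :=
    ⟨fun _ _ => mem_univ _, hx1, fun j b b' => (hx1 j).eq_iff, hx2,
      fun j b y _ hy => ⟨b, hy.symm⟩, hxz, fun _ _ _ => mem_univ _,
      fun j m c c' _ => Subsingleton.elim c c', fun _ _ _ _ => rfl,
      fun j m m' c c' hm h => hm (hv j h), fun j m c y _ hy => ⟨c, hy.symm⟩, fun j m _ => hvz j m,
      fun _ _ => mem_univ _, fun a ha y _ hy => by
        have hy' : y = a := hy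
        rw [hy']
        exact ha⟩
  obtain ⟨n, hn, T, hT, hA, In, -, hSP⟩ := gpx hs hr hloc
    (fun m => (hfin m).subset fun y ⟨l, h1, _, h2⟩ => ⟨l, h1, h2⟩) (le_refl 1) hpre hS hS2
  have hpt : arr x (fun j m (_ : Fin 1) => v j m) S n = pa (fun i => x (n (st S i)))
      (fun i m => v (n (st S i)) (n (st S i + 1 + m))) := by
    funext p
    obtain ⟨i, w | w⟩ := p <;> rfl
  rw [hpt] at hA
  set pt := pa (fun i => x (n (st S i))) (fun i m => v (n (st S i)) (n (st S i + 1 + m)))
    with hptdef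
  refine ⟨n, hn, In, ?_, ?_⟩
  · intro m p q hp hq hpq
    have h1 := patInv_fam hT p q hpq
    rw [hA.lab _ (fun a ha => by
        rw [List.mem_ofFn] at ha
        obtain ⟨i, rfl⟩ := ha
        exact hp i), hA.lab _ (fun a ha => by
        rw [List.mem_ofFn] at ha
        obtain ⟨i, rfl⟩ := ha
        exact hq i), List.map_ofFn, List.map_ofFn, List.ofFn_eq_map, List.ofFn_eq_map] at h1
    exact ty_of_ft h1 id fun i => List.mem_finRange i
  · intro C D1 D2 hC hD1 hD2 hcard
    have hB : ∀ p : Idx k 1, (ec (id : Fin k → Fin k) p ∈ {q : ℕ × (Fin k ⊕ ℕ) |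
        ∀ β, q.2 = .inl β → β ∈ In}) ↔ p ∈ Bp In := by
      rintro ⟨i, w | w⟩
      · constructor
        · intro h b hb
          exact h b (by rw [← Sum.inl.inj hb]; rfl)
        · intro h b hb
          have : w = b := Sum.inl.inj hb
          rw [← this]
          exact h w rfl
      · constructor
        · intro _ b hb
          cases hb
        · intro _ b hb
          cases hb
    have hPt : ∀ D : Finset (Idx k 1), Pt (ec (id : Fin k → Fin k)) univ
        (↑(D.image (ec (id : Fin k → Fin k))) : Set (ℕ × (Fin k ⊕ ℕ))) = (D : Set (Idx k 1)) := by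
      intro D
      ext p
      simp only [Pt, mem_univ, true_and, mem_ofPred_eq, Finset.coe_image, mem_image,
        Finset.mem_coe]
      constructor
      · rintro ⟨q, hq, hqp⟩
        rwa [← ec_id_inj hqp]
      · intro hp
        exact ⟨p, hp, rfl⟩
    obtain ⟨f, hf1, hf2, hf3⟩ := hSP.hom (C.image (ec id)) (D1.image (ec id))
      (D2.image (ec id)) (by
        intro c hc
        obtain ⟨p, hp, rfl⟩ := Finset.mem_image.1 hc
        rw [hB]
        exact (hC p hp).2) (by
        intro c hc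
        obtain ⟨p, hp, rfl⟩ := Finset.mem_image.1 hc
        rw [hB]
        exact (hD1 p hp).2) (by
        intro c hc
        obtain ⟨p, hp, rfl⟩ := Finset.mem_image.1 hc
        rw [hB]
        exact (hD2 p hp).2) (by
        rw [Finset.card_image_of_injective _ ec_id_inj,
          Finset.card_image_of_injective _ ec_id_inj, hcard])
    rw [hPt, hPt] at hf2
    rw [hPt] at hf3
    have hun : Pt (ec (id : Fin k → Fin k)) univ ((↑(C.image (ec (id : Fin k → Fin k))) :
        Set (ℕ × (Fin k ⊕ ℕ))) ∪ ↑(D1.image (ec (id : Fin k → Fin k)))) =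
        (C : Set (Idx k 1)) ∪ D1 := by
      have h1 : ∀ P Q : Set (ℕ × (Fin k ⊕ ℕ)), Pt (ec (κ := 1) (id : Fin k → Fin k)) univ (P ∪ Q) =
          Pt (ec (id : Fin k → Fin k)) univ P ∪ Pt (ec (id : Fin k → Fin k)) univ Q := by
        intro P Q
        ext p
        simp only [Pt, mem_univ, true_and, mem_ofPred_eq, mem_union]
      rw [h1, hPt, hPt]
    rw [hun] at hf1
    have hfC : ∀ p ∈ C, f p = p := fun p hp => hf3 p hp
    have hfD : ∀ p ∈ D1, f p ∈ D2 := fun p hp => by
      have : f p ∈ f '' (D1 : Set (Idx k 1)) := ⟨p, hp, rfl⟩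
      rw [hf2] at this
      exact this
    refine ⟨f, hfC, ⟨fun p hp => hfD p hp, hf1.inj.mono subset_union_right, ?_⟩, ?_⟩
    · rw [SurjOn, hf2]
    · intro ι y hy
      have hl : ∀ p ∈ (C ∪ D1).toList, p ∈ C ∨ p ∈ D1 := fun p hp => by
        rw [Finset.mem_toList, Finset.mem_union] at hp
        exact hp
      have e1 := hf1.lab (C ∪ D1).toList (fun p hp => hl p hp)
      rw [hA.lab _ (fun p hp => (hl p hp).elim (fun h => (hC p h).1) fun h => (hD1 p h).1),
        hA.lab _ (fun p hp => by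
          rw [List.mem_map] at hp
          obtain ⟨q, hq, rfl⟩ := hp
          rcases hl q hq with h | h
          · rw [hfC q h]
            exact (hC q h).1
          · exact (hD2 _ (hfD q h)).1), List.map_map] at e1
      refine ty_of_ft e1 y fun i => ?_
      rw [Finset.mem_toList, Finset.mem_union]
      exact hy i

end Pool.Agent.H75.KN
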