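import Pool.Agent.H75.HCI.GPX

/-!
# Types of families of points
-/

set_option autoImplicit false

namespace Pool.Agent.H75.KN

open Set Pool.Agent.H75.HCI

variable {α L ι κ : Type} {t : List α → L}

/-- The lists of variables with constants from `C`. -/
abbrev Vl (α ι : Type) (C : Set α) : Type := {V : List (α ⊕ ι) // ∀ c, Sum.inl c ∈ V → c ∈ C}

/-- The type of a family over a set. -/
def ty (t : List α → L) (C : Set α) (x : ι → α) : Vl α ι C → L :=
  fun V => t (V.1.map (Sum.elim id x))

lemma ty_iff {C : Set α} {x x' : ι → α} : ty t C x = ty t C x' ↔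
    ∀ V : List (α ⊕ ι), (∀ c, Sum.inl c ∈ V → c ∈ C) →
      t (V.map (Sum.elim id x)) = t (V.map (Sum.elim id x')) :=
  ⟨fun h V hV => congrFun h ⟨V, hV⟩, fun h => funext fun V => h V.1 V.2⟩

lemma ty_mono {C C' : Set α} (hC : C ⊆ C') {x x' : ι → α} (h : ty t C' x = ty t C' x') :
    ty t C x = ty t C x' := by
  rw [ty_iff] at h ⊢
  exact fun V hV => h V fun c hc => hC (hV c hc)

lemma ty_comp {C : Set α} {x x' : ι → α} (f : κ → ι) (h : ty t C x = ty t C x') :
    ty t C (x ∘ f) = ty t C (x' ∘ f) := by
  rw [ty_iff] at h ⊢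
  intro V hV
  have h1 := h (V.map (Sum.map id f)) (fun c hc => by
    rw [List.mem_map] at hc
    obtain ⟨w, hw, hwc⟩ := hc
    rcases w with w | w
    · simp only [Sum.map_inl, id_eq, Sum.inl.injEq] at hwc
      rw [← hwc]
      exact hV w hw
    · simp at hwc)
  rw [List.map_map, List.map_map] at h1
  have e : ∀ y : ι → α, (Sum.elim id y ∘ Sum.map id f : α ⊕ κ → α) = Sum.elim id (y ∘ f) := by
    intro y
    funext w
    rcases w with w | w <;> rfl
  rw [e, e] at h1
  exact h1

/-- Constants from the base can be added to the family. -/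
lemma ty_const {C : Set α} {x x' : ι → α} (c : κ → α) (hc : ∀ i, c i ∈ C)
    (h : ty t C x = ty t C x') : ty t C (Sum.elim c x) = ty t C (Sum.elim c x') := by
  rw [ty_iff] at h ⊢
  intro V hV
  have h1 := h (V.map (Sum.elim Sum.inl (Sum.elim (fun k => Sum.inl (c k)) Sum.inr)))
    (fun a ha => by
      rw [List.mem_map] at ha
      obtain ⟨w, hw, hwa⟩ := ha
      rcases w with w | w | w
      · simp only [Sum.elim_inl, Sum.inl.injEq] at hwa
        rw [← hwa]
        exact hV w hw
      · simp only [Sum.elim_inr, Sum.elim_inl, Sum.inl.injEq] at hwa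
        rw [← hwa]
        exact hc w
      · simp at hwa)
  rw [List.map_map, List.map_map] at h1
  have e : ∀ y : ι → α, ((Sum.elim id y) ∘ (Sum.elim Sum.inl
      (Sum.elim (fun k => Sum.inl (c k)) Sum.inr)) : α ⊕ (κ ⊕ ι) → α) =
      Sum.elim id (Sum.elim c y) := by
    intro y
    funext w
    rcases w with w | w | w <;> rfl
  rw [e, e] at h1
  exact h1

/-- A family over a bigger base. -/
lemma ty_base {C : Set α} (c : κ → α) {x x' : ι → α}
    (h : ty t C (Sum.elim c x) = ty t C (Sum.elim c x')) :
    ty t (C ∪ range c) x = ty t (C ∪ range c) x' := by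
  classical
  rw [ty_iff] at h ⊢
  intro V hV
  let f : α ⊕ ι → α ⊕ (κ ⊕ ι) := Sum.elim (fun a => if h : ∃ k, c k = a then
    Sum.inr (Sum.inl h.choose) else Sum.inl a) (fun i => Sum.inr (Sum.inr i))
  have h1 := h (V.map f) (fun a ha => by
      rw [List.mem_map] at ha
      obtain ⟨w, hw, hwa⟩ := ha
      rcases w with w | w
      · simp only [f, Sum.elim_inl] at hwa
        split_ifs at hwa with h2
        simp only [Sum.inl.injEq] at hwa
        rw [← hwa]
        rcases hV w hw with h3 | h3
        · exact h3
        · exact absurd h3 h2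
      · simp [f] at hwa)
  rw [List.map_map, List.map_map] at h1
  have e : ∀ y : ι → α, (Sum.elim id (Sum.elim c y)) ∘ f = Sum.elim id y := by
    intro y
    funext w
    rcases w with w | w
    · simp only [f, Function.comp, Sum.elim_inl, id_eq]
      split_ifs with h2
      · exact h2.choose_spec
      · rfl
    · rfl
  rw [e, e] at h1
  exact h1

/-- A map which preserves the labels and fixes the base. -/
lemma ty_aut {C : Set α} (x : ι → α) (g : α → α) (hg : ∀ l : List α, t (l.map g) = t l)
    (hC : ∀ c ∈ C, g c = c) : ty t C (g ∘ x) = ty t C x := by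
  rw [ty_iff]
  intro V hV
  rw [← hg (V.map (Sum.elim id x)), List.map_map]
  congr 1
  refine List.map_congr_left fun w hw => ?_
  rcases w with w | w
  · exact (hC w (hV w hw)).symm
  · rfl

/-- Families of points: the labels of lists of variables without constants. -/
lemma ty_empty {x x' : ι → α} (h : ∀ V : List ι, t (V.map x) = t (V.map x')) :
    ty t (∅ : Set α) x = ty t ∅ x' := by
  rw [ty_iff]
  intro V hV
  have h1 : ∃ W : List ι, W.map Sum.inr = V := by
    clear h
    induction V with
    | nil => exact ⟨[], rfl⟩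
    | cons w V ih =>
      obtain ⟨W, hW⟩ := ih fun c hc => hV c (List.mem_cons_of_mem _ hc)
      rcases w with w | w
      · exact absurd (hV w (List.mem_cons_self ..)) (notMem_empty _)
      · exact ⟨w :: W, by rw [List.map_cons, hW]⟩
  obtain ⟨W, rfl⟩ := h1
  rw [List.map_map, List.map_map]
  exact h W

/-! ## Finitely many types -/

/-- By the bound of the arity short lists are sufficient. -/
lemma ty_of_short {r : ℕ} (hloc : Loc r t) {C : Set α} {x x' : ι → α}
    (h : ∀ V : List (α ⊕ ι), V.length ≤ r → (∀ c, Sum.inl c ∈ V → c ∈ C) →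
      t (V.map (Sum.elim id x)) = t (V.map (Sum.elim id x'))) : ty t C x = ty t C x' := by
  rw [ty_iff]
  intro V hV
  have h1 := hloc (V.map (Sum.elim id x)) (V.map (Sum.elim id x'))
    (by rw [List.length_map, List.length_map]) (fun w hw => by
      unfold ft
      rw [sel_map, sel_map]
      refine h _ ?_ fun c hc => hV c (sel_mem hc)
      exact (List.length_filterMap_le _ _).trans hw)
  have h2 := congrFun h1 (List.range (V.map (Sum.elim id x)).length)
  rw [ft_range] at h2
  rw [h2]
  have h3 : (V.map (Sum.elim id x)).length = (V.map (Sum.elim id x')).length := by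
    rw [List.length_map, List.length_map]
  rw [h3, ft_range]

/-- Finitely many types over a finite set. -/
theorem ty_finite {r : ℕ} (hloc : Loc r t)
    (hfin : ∀ m, {y | ∃ l : List α, l.length = m ∧ t l = y}.Finite) {C : Set α} (hC : C.Finite)
    [Finite ι] : (range fun x : ι → α => ty t C x).Finite := by
  classical
  have hf : {y | ∃ l : List α, l.length ≤ r ∧ t l = y}.Finite := by
    refine ((finite_Iic r).biUnion fun m _ => hfin m).subset ?_
    rintro y ⟨l, h1, h2⟩
    rw [mem_iUnion₂]
    exact ⟨l.length, h1, l, rfl, h2⟩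
  have : Finite {y | ∃ l : List α, l.length ≤ r ∧ t l = y} := hf
  have : Finite C := hC
  have hW : {W : List (↥C ⊕ ι) | W.length ≤ r}.Finite := List.finite_length_le _ _
  have : Finite {W : List (↥C ⊕ ι) | W.length ≤ r} := hW
  let F : (ι → α) → ({W : List (↥C ⊕ ι) | W.length ≤ r} → {y | ∃ l : List α, l.length ≤ r ∧
      t l = y}) := fun x W => ⟨t ((W.1 : List (↥C ⊕ ι)).map (Sum.elim (fun c : ↥C => (c : α)) x)),
        _, by
          rw [List.length_map]
          exact W.2, rfl⟩
  have hF : ∀ x x', F x = F x' → ty t C x = ty t C x' := by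
    intro x x' h
    refine ty_of_short hloc fun V hV hVC => ?_
    have h1 : ∃ W : List (↥C ⊕ ι), W.map (Sum.map (fun c : ↥C => (c : α)) (id : ι → ι)) = V := by
      clear hV
      induction V with
      | nil => exact ⟨[], rfl⟩
      | cons w V ih =>
        obtain ⟨W, hW⟩ := ih fun c hc => hVC c (List.mem_cons_of_mem _ hc)
        rcases w with w | w
        · exact ⟨Sum.inl ⟨w, hVC w (List.mem_cons_self ..)⟩ :: W, by
            rw [List.map_cons, hW]; rfl⟩
        · exact ⟨Sum.inr w :: W, by rw [List.map_cons, hW]; rfl⟩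
    obtain ⟨W, rfl⟩ := h1
    rw [List.length_map] at hV
    have h2 := congrArg Subtype.val (congrFun h ⟨W, hV⟩)
    rw [List.map_map, List.map_map]
    have e : ∀ y : ι → α, (Sum.elim id y ∘ Sum.map (fun c : ↥C => (c : α)) (id : ι → ι)) =
        Sum.elim (fun c : ↥C => (c : α)) y := by
      intro y
      funext w
      rcases w with w | w <;> rfl
    rw [e, e]
    exact h2
  by_cases hne : Nonempty (ι → α)
  · obtain ⟨x0⟩ := hne
    have h1 : (range F).Finite := toFinite _
    refine (h1.image fun f => if h : ∃ x, F x = f then ty t C h.choose else ty t C x0).subset ?_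
    rintro _ ⟨x, rfl⟩
    refine ⟨F x, ⟨x, rfl⟩, ?_⟩
    have h : ∃ x', F x' = F x := ⟨x, rfl⟩
    change (if h : ∃ x', F x' = F x then ty t C h.choose else ty t C x0) = ty t C x
    rw [dif_pos h]
    exact hF _ _ h.choose_spec
  · have h1 : (range fun x : ι → α => ty t C x) = ∅ := by
      rw [range_eq_empty_iff]
      exact not_nonempty_iff.1 hne
    rw [h1]
    exact finite_empty

end Pool.Agent.H75.KN
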